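import Pool.Agent.Y41.EV.StmD

set_option autoImplicit false

/-! Project EV: the upper bound in the law of the iterated logarithm at almost every time. -/

namespace Pool.Agent.Y891.EV

open MeasureTheory Filter Topology
open Pool.Agent.Y41.EV

theorem log_le_two_ll (m : ℕ) (hm : 1 ≤ m) (h : ℝ) (h0 : 0 < h) (hh : h ≤ (1 / 2) ^ m) :
    Real.log m ≤ 2 * ll h := by
  have hm0 : (0 : ℝ) < m := by exact_mod_cast hm
  have h1 : (2 : ℝ) ^ m ≤ 1 / h := by
    rw [le_div_iff₀ h0]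
    calc (2 : ℝ) ^ m * h ≤ 2 ^ m * (1 / 2) ^ m := by gcongr
      _ = 1 := by rw [← mul_pow]; norm_num
  have h2 : (m : ℝ) * Real.log 2 ≤ Real.log (1 / h) := by
    rw [← Real.log_pow]
    exact Real.log_le_log (by positivity) h1
  have h3 : (1 : ℝ) / 2 ≤ Real.log 2 := by
    have := Real.log_two_gt_d9
    linarith
  have h4 : (m : ℝ) ≤ 2 * Real.log (1 / h) := by nlinarith
  have h5 : 0 < Real.log (1 / h) := by nlinarith
  have h6 : Real.log m ≤ Real.log 2 + Real.log (Real.log (1 / h)) := by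
    rw [← Real.log_mul (by norm_num) h5.ne']
    exact Real.log_le_log hm0 h4
  have h7 : Real.log (Real.log (1 / h)) ≤ ll h := le_max_right _ _
  have h8 := ll_ge h
  have h9 : Real.log 2 ≤ 1 := by
    have := Real.log_two_lt_d9
    linarith
  linarith

theorem t_LILUP : S_LILUP := by
  intro K hK
  refine ⟨2 * K, by positivity, fun p hT hF => ?_⟩
  obtain ⟨n0, hn0⟩ := hF
  -- Borel-Cantelli
  obtain ⟨A, hA⟩ : ∃ A : ℕ → Set unitInterval,
      A = fun n => if max n0 1 ≤ n then FT p (yy K n 0) (2 * (1 / 2) ^ n) else ∅ := ⟨_, rfl⟩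
  have hsum : ∑' n, volume (A n) ≠ ⊤ := by
    have hs : Summable (fun n : ℕ => (n : ℝ) ^ (-2 : ℝ) / p.2) := by
      apply Summable.div_const
      rw [Real.summable_nat_rpow]
      norm_num
    refine ne_top_of_le_ne_top hs.tsum_ofReal_ne_top (ENNReal.tsum_le_tsum fun n => ?_)
    rw [hA]
    simp only
    split_ifs with h
    · have h1 := hn0 n (le_trans (le_max_left _ _) h) 0
      have hfin : volume (FT p (yy K n 0) (2 * (1 / 2) ^ n)) ≠ ⊤ := measure_ne_top _ _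
      rw [← ENNReal.ofReal_toReal hfin]
      apply ENNReal.ofReal_le_ofReal
      rw [le_div_iff₀ hT, mul_comm]
      refine h1.trans (le_of_eq ?_)
      norm_num
    · simp
  have hae := ae_eventually_notMem hsum
  filter_upwards [hae] with t ht
  rw [eventually_atTop] at ht
  obtain ⟨n1, hn1⟩ := ht
  obtain ⟨n2, hn2⟩ : ∃ n2 : ℕ, n2 = max n1 (max n0 1) := ⟨_, rfl⟩
  have key : ∀ m, n2 ≤ m → ∀ s : unitInterval, p.2 * |(s : ℝ) - t| < 2 * (1 / 2) ^ m →
      dist (p.1 s) (p.1 t) ≤ yy K m 0 := by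
    intro m hm s hs
    have h1 := hn1 m (by omega)
    rw [hA] at h1
    simp only at h1
    rw [if_pos (by omega)] at h1
    by_contra hcon
    push Not at hcon
    exact h1 ⟨s, hs, hcon⟩
  have hcont : Continuous fun s : unitInterval => p.2 * |(s : ℝ) - t| := by fun_prop
  have hnb : ∀ᶠ s : unitInterval in 𝓝 t, p.2 * |(s : ℝ) - t| < (1 / 2) ^ n2 := by
    have h0 : p.2 * |(t : ℝ) - t| < (1 / 2) ^ n2 := by
      rw [sub_self, abs_zero, mul_zero]
      positivity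
    exact hcont.tendsto t (Iio_mem_nhds h0)
  filter_upwards [hnb] with s hs
  obtain ⟨h, hh⟩ : ∃ h : ℝ, h = p.2 * |(s : ℝ) - t| := ⟨_, rfl⟩
  rw [← hh] at hs ⊢
  have hh0 : 0 ≤ h := by rw [hh]; positivity
  rcases hh0.eq_or_lt with h0 | h0
  · have h1 : |(s : ℝ) - t| = 0 := by
      rw [← h0] at hh
      rcases mul_eq_zero.1 hh.symm with h2 | h2
      · exact absurd h2 hT.ne'
      · exact h2
    have h2 : s = t := by
      apply Subtype.ext
      have := abs_eq_zero.1 h1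
      linarith
    rw [h2, dist_self]
    unfold phi
    have := ll_pos h
    positivity
  · obtain ⟨m, hm1, hm2⟩ := exists_nat_pow_near_of_lt_one h0
      (hs.le.trans (pow_le_one₀ (by norm_num) (by norm_num))) (by norm_num : (0 : ℝ) < 1 / 2)
      (by norm_num)
    have hmn : n2 ≤ m := by
      by_contra hcon
      push Not at hcon
      have : ((1 : ℝ) / 2) ^ n2 ≤ (1 / 2) ^ (m + 1) :=
        pow_le_pow_of_le_one (by norm_num) (by norm_num) hcon
      linarith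
    have hm0 : 1 ≤ m := by omega
    have hpos : (0 : ℝ) < (1 / 2) ^ m := by positivity
    have h1 := key m hmn s (by rw [← hh]; linarith)
    refine h1.trans ?_
    have h2 := log_le_two_ll m hm0 h h0 hm2
    have h3 : ((1 : ℝ) / 2) ^ m ≤ 2 * h := by
      rw [pow_succ] at hm1
      linarith
    have hlog : 0 ≤ Real.log m := Real.log_nonneg (by exact_mod_cast hm0)
    have hll := ll_pos h
    unfold yy phi
    have e1 : (((1 : ℝ) / 2) ^ m) ^ (4 / 7 : ℝ) ≤ (2 * h) ^ (4 / 7 : ℝ) :=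
      Real.rpow_le_rpow hpos.le h3 (by norm_num)
    have e2 : Real.log m ^ (3 / 7 : ℝ) ≤ (2 * ll h) ^ (3 / 7 : ℝ) :=
      Real.rpow_le_rpow hlog h2 (by norm_num)
    have e3 : (2 * h) ^ (4 / 7 : ℝ) = 2 ^ (4 / 7 : ℝ) * h ^ (4 / 7 : ℝ) :=
      Real.mul_rpow (by norm_num) hh0
    have e4 : (2 * ll h) ^ (3 / 7 : ℝ) = 2 ^ (3 / 7 : ℝ) * ll h ^ (3 / 7 : ℝ) :=
      Real.mul_rpow (by norm_num) hll.le
    have e5 : (2 : ℝ) ^ (4 / 7 : ℝ) * 2 ^ (3 / 7 : ℝ) = 2 := by
      rw [← Real.rpow_add (by norm_num)]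
      norm_num
    rw [pow_zero, one_mul]
    calc K * ((((1 : ℝ) / 2) ^ m) ^ (4 / 7 : ℝ) * Real.log m ^ (3 / 7 : ℝ))
        ≤ K * ((2 * h) ^ (4 / 7 : ℝ) * (2 * ll h) ^ (3 / 7 : ℝ)) := by gcongr
      _ = K * ((2 ^ (4 / 7 : ℝ) * 2 ^ (3 / 7 : ℝ)) * (h ^ (4 / 7 : ℝ) * ll h ^ (3 / 7 : ℝ))) := by
          rw [e3, e4]; ring
      _ = 2 * K * (h ^ (4 / 7 : ℝ) * ll h ^ (3 / 7 : ℝ)) := by rw [e5]; ring

end Pool.Agent.Y891.EV
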